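import Pool.Agent.N251.LF.Tuples
import Pool.Agent.N251.LF.Fields
import Pool.Agent.Results.MP_bde085_nt.EveryOneParameterFamily

/-!
# The Shimura maps at all integers and at all rational numbers near the values of generic linear forms

The starting file `EveryOneParameterFamily` bounds the number of the integers and of the rational
numbers `t` of height at most `B` for which the polynomial bounds of Q1 fail for some elliptic curve
of invariant `J(t)`.  Here ONE set of small Hausdorff dimension is removed from the space of the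
coefficients `α`, for ALL rational functions `J` of all degrees at once, so that for all other `α` the
bounds hold at ALL the integers (rational numbers) in the windows of width `c |v_i| ^ θ` around the
values at the vectors `v_i`, for all but finitely many `i` and every `c`.
-/

set_option autoImplicit false

namespace Pool.Agent.Results.MP_bde085_nt.GenericLinearForms

open Polynomial Pool.Agent.N251.LF
open Pool.Agent.Results.MP_bde085_nt.EveryOneParameterFamily (IsFunction poleCount HoldsAt)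

/-- The exponent of the bounds of Q1 for the functions of degree `d`, if a set of dimension `ε` is
left out: `11 / 2 + 4 (d + 1) / (3 ε)`. -/
noncomputable def expo (d : ℕ) (ε : ℝ) : ℝ := 11 / 2 + 4 * (d + 1) / (3 * ε)

/-- For every `c`, all the integers within `c |v_i| ^ θ` of `∑ α_j v_(i,j)`, for all but finitely many
`i`, have the property `P`. -/
def IntegersNear {k : ℕ} {ι : Type} (v : ι → Fin k → ℝ) (θ : ℝ) (P : ℚ → Prop) (α : Fin k → ℝ) : Prop :=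
  ∀ c : ℝ, {i | ¬ ∀ t : ℤ, |(t : ℝ) - ∑ j, α j * v i j| ≤ c * ‖v i‖ ^ θ → P t}.Finite

/-- For every `c`, all the rational numbers whose numerator and denominator (in lowest terms) are
within `c |v_i| ^ θ` of the two coordinates of `M v_i`, for all but finitely many `i`, have the
property `P`. -/
def RationalsNear {k : ℕ} {ι : Type} (v : ι → Fin k → ℝ) (θ : ℝ) (P : ℚ → Prop)
    (M : Fin 2 × Fin k → ℝ) : Prop :=
  ∀ c : ℝ, {i | ¬ ∀ t : ℚ, |(t.num : ℝ) - ∑ j, M (0, j) * v i j| ≤ c * ‖v i‖ ^ θ →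
    |(t.den : ℝ) - ∑ j, M (1, j) * v i j| ≤ c * ‖v i‖ ^ θ → P t}.Finite

section Tools

variable {k : ℕ} {ι : Type}

lemma ints_finite (P : ℤ → Prop) (X : ℝ) : {t : ℤ | P t ∧ |(t : ℝ)| ≤ X}.Finite := by
  refine (Set.finite_Icc (-⌈X⌉) ⌈X⌉).subset fun t ht => ?_
  have h1 : |(t : ℝ)| ≤ ⌈X⌉ := ht.2.trans (Int.le_ceil X)
  have h2 : |t| ≤ ⌈X⌉ := by exact_mod_cast h1
  exact ⟨(abs_le.1 h2).1, (abs_le.1 h2).2⟩

/-- the count of exceptional integers, in the form of the engine -/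
lemma count_int {P : ℤ → Prop} {s : ℝ} (hs : 0 ≤ s)
    (h : ∃ C : ℝ, ∀ B : ℕ, 1 ≤ B → ({t : ℤ | |t| ≤ B ∧ P t}.ncard : ℝ) ≤ C * (B : ℝ) ^ s) :
    ∀ ε : ℝ, 0 < ε → ∃ C : ℝ, ∀ X : ℝ, 1 ≤ X →
      {t : ℤ | P t ∧ |(t : ℝ)| ≤ X}.Finite ∧ ({t : ℤ | P t ∧ |(t : ℝ)| ≤ X}.ncard : ℝ) ≤ C * X ^ (s + ε) := by
  intro ε hε
  obtain ⟨C, hC⟩ := h
  refine ⟨|C|, fun X hX => ⟨ints_finite P X, ?_⟩⟩
  have hX1 : 1 ≤ ⌊X⌋₊ := Nat.le_floor (by exact_mod_cast hX)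
  have hXf : (⌊X⌋₊ : ℝ) ≤ X := Nat.floor_le (by linarith)
  have hsub : {t : ℤ | P t ∧ |(t : ℝ)| ≤ X} ⊆ {t : ℤ | |t| ≤ (⌊X⌋₊ : ℕ) ∧ P t} := by
    rintro t ⟨h1, h2⟩
    refine ⟨?_, h1⟩
    have h3 : ((t.natAbs : ℕ) : ℝ) ≤ X := by
      rw [Nat.cast_natAbs]
      push_cast
      exact h2
    have h4 := Nat.le_floor h3
    have h5 : ((t.natAbs : ℕ) : ℤ) = |t| := by rw [Int.natCast_natAbs]
    rw [← h5]
    exact_mod_cast h4
  have hfin : {t : ℤ | |t| ≤ (⌊X⌋₊ : ℕ) ∧ P t}.Finite := by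
    refine (Set.finite_Icc (-(⌊X⌋₊ : ℤ)) ⌊X⌋₊).subset fun t ht => ?_
    exact ⟨(abs_le.1 ht.1).1, (abs_le.1 ht.1).2⟩
  have h1 : (({t : ℤ | P t ∧ |(t : ℝ)| ≤ X}.ncard : ℕ) : ℝ) ≤ ({t : ℤ | |t| ≤ (⌊X⌋₊ : ℕ) ∧ P t}.ncard : ℕ) := by
    exact_mod_cast Set.ncard_le_ncard hsub hfin
  calc (({t : ℤ | P t ∧ |(t : ℝ)| ≤ X}.ncard : ℕ) : ℝ)
      ≤ C * (⌊X⌋₊ : ℝ) ^ s := h1.trans (hC _ hX1)
    _ ≤ |C| * (⌊X⌋₊ : ℝ) ^ s := mul_le_mul_of_nonneg_right (le_abs_self C) (by positivity)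
    _ ≤ |C| * X ^ s := by gcongr
    _ ≤ |C| * X ^ (s + ε) :=
        mul_le_mul_of_nonneg_left (Real.rpow_le_rpow_of_exponent_le hX (by linarith)) (abs_nonneg C)

/-- the engine for integers of both signs -/
lemma near_int (v : ι → Fin k → ℝ) {s τ θ : ℝ} (hs : 0 ≤ s) (hτ : 0 ≤ τ) (hθ : θ < 1) (hv : Fam v τ)
    (P : ℚ → Prop)
    (h : ∃ C : ℝ, ∀ B : ℕ, 1 ≤ B → ({t : ℤ | |t| ≤ B ∧ ¬ P t}.ncard : ℝ) ≤ C * (B : ℝ) ^ s) :
    ∃ E : Set (Fin k → ℝ), dimH E ≤ ENNReal.ofReal ((k : ℝ) - 1 + (s + τ) / (1 - θ)) ∧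
      ∀ α, α ∉ E → IntegersNear v θ P α := by
  have hcount := count_int (P := fun t : ℤ => ¬ P t) hs h
  have key : ∀ σ : ℝ, |σ| = 1 → ∃ E : Set (Fin k → ℝ),
      dimH E ≤ ENNReal.ofReal ((k : ℝ) - 1 + (s + τ) / (1 - θ)) ∧
      ∀ α, α ∉ E → ∀ c : ℝ, {i | ∃ t ∈ {t : ℤ | ¬ P t ∧ 0 ≤ σ * (t : ℝ)},
        |σ * (t : ℝ) - ∑ j, α j * v i j| ≤ c * ‖v i‖ ^ θ}.Finite := by
    intro σ hσ
    refine linear_windows {t : ℤ | ¬ P t ∧ 0 ≤ σ * (t : ℝ)} (fun t : ℤ => σ * (t : ℝ)) v hs hτ hθ hv ?_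
    intro ε hε
    obtain ⟨C, hC⟩ := hcount ε hε
    refine ⟨C, fun X hX => ?_⟩
    obtain ⟨f1, g1⟩ := hC X hX
    have hsub : {t : ℤ | t ∈ {t : ℤ | ¬ P t ∧ 0 ≤ σ * (t : ℝ)} ∧ σ * (t : ℝ) ≤ X} ⊆
        {t : ℤ | ¬ P t ∧ |(t : ℝ)| ≤ X} := by
      rintro t ⟨⟨h1, h2⟩, h3⟩
      refine ⟨h1, ?_⟩
      have h4 : |(t : ℝ)| = |σ * (t : ℝ)| := by rw [abs_mul, hσ, one_mul]
      rw [h4, abs_of_nonneg h2]
      exact h3
    refine ⟨f1.subset hsub, le_trans ?_ g1⟩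
    exact_mod_cast Set.ncard_le_ncard hsub f1
  obtain ⟨E₁, hE₁, h₁⟩ := key 1 abs_one
  obtain ⟨E₂, hE₂, h₂⟩ := key (-1) (by rw [abs_neg, abs_one])
  refine ⟨E₁ ∪ (IsometryEquiv.neg (Fin k → ℝ)) ⁻¹' E₂, ?_, fun α hα c => ?_⟩
  · rw [dimH_union, IsometryEquiv.dimH_preimage]
    exact max_le hE₁ hE₂
  · rw [Set.mem_union, not_or] at hα
    have hα2 : -α ∉ E₂ := hα.2
    refine ((h₁ α hα.1 c).union (h₂ (-α) hα2 c)).subset ?_
    intro i hi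
    simp only [Set.mem_ofPred_eq] at hi
    push Not at hi
    obtain ⟨t, h3, h4⟩ := hi
    rcases le_total (0 : ℝ) (t : ℝ) with h0 | h0
    · left
      refine ⟨t, ⟨h4, by rw [one_mul]; exact h0⟩, ?_⟩
      rw [one_mul]
      exact h3
    · right
      refine ⟨t, ⟨h4, by linarith⟩, ?_⟩
      have h5 : ∑ j, (-α) j * v i j = - ∑ j, α j * v i j := by
        rw [← Finset.sum_neg_distrib]
        refine Finset.sum_congr rfl fun j _ => ?_
        rw [Pi.neg_apply, neg_mul]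
      rw [h5, show (-1 : ℝ) * (t : ℝ) - - ∑ j, α j * v i j = -((t : ℝ) - ∑ j, α j * v i j) by ring, abs_neg]
      exact h3

lemma rats_finite (P : ℚ → Prop) (B : ℕ) : {t : ℚ | |t.num| ≤ B ∧ t.den ≤ B ∧ P t}.Finite := by
  have hinj : Set.InjOn (fun t : ℚ => (t.num, t.den)) {t : ℚ | |t.num| ≤ B ∧ t.den ≤ B ∧ P t} := by
    intro a _ b _ hab
    exact Rat.ext (congrArg Prod.fst hab) (congrArg Prod.snd hab)
  refine Set.Finite.of_injOn (t := (Set.Icc (-(B : ℤ)) B) ×ˢ (Set.Iic B)) (f := fun t : ℚ => (t.num, t.den))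
    ?_ hinj ((Set.finite_Icc _ _).prod (Set.finite_Iic _))
  rintro t ⟨h1, h2, _⟩
  exact ⟨⟨(abs_le.1 h1).1, (abs_le.1 h1).2⟩, h2⟩

/-- the engine for rational numbers -/
lemma near_rat (v : ι → Fin k → ℝ) {s τ θ : ℝ} (hs : 0 ≤ s) (hτ : 0 ≤ τ) (hθ : θ < 1) (hv : Fam v τ)
    (P : ℚ → Prop)
    (h : ∃ C : ℝ, ∀ B : ℕ, 1 ≤ B →
      ({t : ℚ | |t.num| ≤ B ∧ t.den ≤ B ∧ ¬ P t}.ncard : ℝ) ≤ C * (B : ℝ) ^ s) :
    ∃ E : Set (Fin 2 × Fin k → ℝ), dimH E ≤ ENNReal.ofReal (2 * ((k : ℝ) - 1) + (s + τ) / (1 - θ)) ∧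
      ∀ M, M ∉ E → RationalsNear v θ P M := by
  obtain ⟨C, hC⟩ := h
  obtain ⟨E, hE, h2⟩ := tuple_windows {t : ℚ | ¬ P t} (fun t : ℚ => ![(t.num : ℝ), (t.den : ℝ)]) v hs hτ hθ hv
    (by
      intro ε hε
      refine ⟨|C|, fun X hX => ?_⟩
      have hX1 : 1 ≤ ⌊X⌋₊ := Nat.le_floor (by exact_mod_cast hX)
      have hXf : (⌊X⌋₊ : ℝ) ≤ X := Nat.floor_le (by linarith)
      have hsub : {t : ℚ | t ∈ {t : ℚ | ¬ P t} ∧ ∀ l, |(![(t.num : ℝ), (t.den : ℝ)] : Fin 2 → ℝ) l| ≤ X} ⊆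
          {t : ℚ | |t.num| ≤ (⌊X⌋₊ : ℕ) ∧ t.den ≤ ⌊X⌋₊ ∧ ¬ P t} := by
        rintro t ⟨h1, h2⟩
        have h3 : |(t.num : ℝ)| ≤ X := by simpa using h2 0
        have h4 : (t.den : ℝ) ≤ X := by simpa using h2 1
        refine ⟨?_, Nat.le_floor h4, h1⟩
        have h5 : ((t.num.natAbs : ℕ) : ℝ) ≤ X := by
          rw [Nat.cast_natAbs]
          push_cast
          exact h3
        have h6 := Nat.le_floor h5
        have h7 : ((t.num.natAbs : ℕ) : ℤ) = |t.num| := by rw [Int.natCast_natAbs]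
        rw [← h7]
        exact_mod_cast h6
      have hfin := rats_finite (fun t => ¬ P t) ⌊X⌋₊
      refine ⟨hfin.subset hsub, ?_⟩
      have h1 : (({t : ℚ | t ∈ {t : ℚ | ¬ P t} ∧
          ∀ l, |(![(t.num : ℝ), (t.den : ℝ)] : Fin 2 → ℝ) l| ≤ X}.ncard : ℕ) : ℝ) ≤
          ({t : ℚ | |t.num| ≤ (⌊X⌋₊ : ℕ) ∧ t.den ≤ ⌊X⌋₊ ∧ ¬ P t}.ncard : ℕ) := by
        exact_mod_cast Set.ncard_le_ncard hsub hfin
      calc (({t : ℚ | t ∈ {t : ℚ | ¬ P t} ∧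
          ∀ l, |(![(t.num : ℝ), (t.den : ℝ)] : Fin 2 → ℝ) l| ≤ X}.ncard : ℕ) : ℝ)
          ≤ C * (⌊X⌋₊ : ℝ) ^ s := h1.trans (hC _ hX1)
        _ ≤ |C| * (⌊X⌋₊ : ℝ) ^ s := mul_le_mul_of_nonneg_right (le_abs_self C) (by positivity)
        _ ≤ |C| * X ^ s := by gcongr
        _ ≤ |C| * X ^ (s + ε) :=
            mul_le_mul_of_nonneg_left (Real.rpow_le_rpow_of_exponent_le hX (by linarith)) (abs_nonneg C))
  refine ⟨E, by exact_mod_cast hE, fun M hM c => (h2 M hM c).subset ?_⟩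
  intro i hi
  simp only [Set.mem_ofPred_eq] at hi
  push Not at hi
  obtain ⟨t, h3, h4, h5⟩ := hi
  refine ⟨t, h5, fun l => ?_⟩
  fin_cases l
  · simpa using h3
  · simpa using h4

/-- all the rational functions of all degrees -/
abbrev Fun : Type := ℕ × ℤ[X] × ℤ[X]

instance countable_poly : Countable ℤ[X] := by
  rw [← Cardinal.mk_le_aleph0_iff]
  refine Polynomial.cardinalMk_le_max.trans ?_
  rw [Cardinal.mk_int, max_self]

/-- countable unions of exceptional sets -/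
lemma union_all {S : Type} [EMetricSpace S] {D : ENNReal} (Q : Fun → Prop) (R : Fun → S → Prop)
    (h : ∀ f, Q f → ∃ E : Set S, dimH E ≤ D ∧ ∀ α, α ∉ E → R f α) :
    ∃ E : Set S, dimH E ≤ D ∧ ∀ α, α ∉ E → ∀ f, Q f → R f α := by
  have h' : ∀ f, ∃ E : Set S, dimH E ≤ D ∧ ∀ α, α ∉ E → Q f → R f α := by
    intro f
    by_cases hf : Q f
    · obtain ⟨E, hE, h1⟩ := h f hf
      exact ⟨E, hE, fun α hα _ => h1 α hα⟩
    · exact ⟨∅, by rw [dimH_empty]; exact zero_le, fun α _ hQ => absurd hQ hf⟩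
  choose E hE hR using h'
  refine ⟨⋃ f, E f, ?_, fun α hα f hf => ?_⟩
  · rw [dimH_iUnion]
    exact iSup_le hE
  · rw [Set.mem_iUnion, not_exists] at hα
    exact hR f α (hα f) hf

end Tools

/-- **Theorem.** Let `v_i` be a family of vectors of `ℝ ^ k` with at most `C X ^ (τ + η)` members of norm
at most `X`, for each `η > 0`, and let `θ < 1`.
(1) For each `ε > 0` there is ONE set of dimension at most `k - 1 + (ε + τ) / (1 - θ)` so that for all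
other `α` in `ℝ ^ k`, for ALL functions `J = A / D` of all degrees `d` with non-constant `D`, all
integers near the values at the `v_i` (for all but finitely many `i`) satisfy the bounds of Q1 with
the exponent `11 / 2 + 4 (d + 1) / (3 ε)`.
(2), (3) The same for all rational numbers near the values of a generic `2 × k` matrix, for all
functions with at least two poles (dimension `2 (k - 1) + (ε + τ) / (1 - θ)`), and for all functions
(`1 + ε` instead of `ε`).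
(4) Outside a set of dimension at most `k - 1 + τ / (1 - θ)` (for `k = 1` and exponentially growing
`v_i`: dimension `0`) (1) holds with some `ε > 0`, the same for all the functions.
(5) Examples of families. -/
theorem result :
    (∀ (k : ℕ) (ι : Type) (v : ι → Fin k → ℝ) (τ θ ε : ℝ), Fam v τ → 0 ≤ τ → θ < 1 → 0 < ε →
      (∃ E : Set (Fin k → ℝ), dimH E ≤ ENNReal.ofReal ((k : ℝ) - 1 + (ε + τ) / (1 - θ)) ∧
        ∀ α, α ∉ E → ∀ (d : ℕ) (A D : ℤ[X]), IsFunction d A D → 1 ≤ D.natDegree →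
          IntegersNear v θ (HoldsAt (expo d ε) A D) α) ∧
      (∃ E : Set (Fin 2 × Fin k → ℝ), dimH E ≤ ENNReal.ofReal (2 * ((k : ℝ) - 1) + (ε + τ) / (1 - θ)) ∧
        ∀ M, M ∉ E → ∀ (d : ℕ) (A D : ℤ[X]), IsFunction d A D → 2 ≤ poleCount d D →
          RationalsNear v θ (HoldsAt (expo d ε) A D) M) ∧
      (∃ E : Set (Fin 2 × Fin k → ℝ), dimH E ≤ ENNReal.ofReal (2 * ((k : ℝ) - 1) + (1 + ε + τ) / (1 - θ)) ∧
        ∀ M, M ∉ E → ∀ (d : ℕ) (A D : ℤ[X]), IsFunction d A D →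
          RationalsNear v θ (HoldsAt (expo d ε) A D) M)) ∧
    (∀ (k : ℕ) (ι : Type) (v : ι → Fin k → ℝ) (τ θ : ℝ), Fam v τ → 0 ≤ τ → θ < 1 →
      ∃ E : Set (Fin k → ℝ), dimH E ≤ ENNReal.ofReal ((k : ℝ) - 1 + τ / (1 - θ)) ∧
        ∀ α, α ∉ E → ∃ ε : ℝ, 0 < ε ∧ ∀ (d : ℕ) (A D : ℤ[X]), IsFunction d A D → 1 ≤ D.natDegree →
          IntegersNear v θ (HoldsAt (expo d ε) A D) α) ∧
    (∀ d : ℕ, 1 ≤ d → Fam (fun (n : ℕ) (j : Fin (d + 1)) => (n : ℝ) ^ (j : ℕ)) (1 / d)) ∧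
    (∀ (k : ℕ) (b : Fin k → ℝ), (∀ j, 1 < b j) → Fam (fun (n : Fin k → ℕ) (j : Fin k) => b j ^ n j) 0) ∧
    (∀ (k : ℕ) (a : Fin k → ℝ), (∀ j, 0 < a j) →
      Fam (fun (n : Fin k → ℕ) (j : Fin k) => (n j : ℝ) ^ a j) (∑ j, 1 / a j)) ∧
    ∀ (k : ℕ) (u : Fin k → ℕ → ℝ) (τ : Fin k → ℝ), (∀ j, Sq (u j) (τ j)) →
      Fam (fun (n : Fin k → ℕ) (j : Fin k) => u j (n j)) (∑ j, τ j) := by
  have one : ∀ (k : ℕ) (ι : Type) (v : ι → Fin k → ℝ) (τ θ ε : ℝ), Fam v τ → 0 ≤ τ → θ < 1 → 0 < ε →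
      ∃ E : Set (Fin k → ℝ), dimH E ≤ ENNReal.ofReal ((k : ℝ) - 1 + (ε + τ) / (1 - θ)) ∧
        ∀ α, α ∉ E → ∀ (d : ℕ) (A D : ℤ[X]), IsFunction d A D → 1 ≤ D.natDegree →
          IntegersNear v θ (HoldsAt (expo d ε) A D) α := by
    intro k ι v τ θ ε hv hτ hθ hε
    obtain ⟨E, hE, h⟩ := union_all (S := Fin k → ℝ) (D := ENNReal.ofReal ((k : ℝ) - 1 + (ε + τ) / (1 - θ)))
      (fun f => IsFunction f.1 f.2.1 f.2.2 ∧ 1 ≤ f.2.2.natDegree)
      (fun f α => IntegersNear v θ (HoldsAt (expo f.1 ε) f.2.1 f.2.2) α)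
      (fun f hf => near_int v hε.le hτ hθ hv _
        ((EveryOneParameterFamily.result f.1 f.2.1 f.2.2 hf.1 ε hε).2.2 hf.2))
    exact ⟨E, hE, fun α hα d A D h1 h2 => h α hα (d, A, D) ⟨h1, h2⟩⟩
  refine ⟨fun k ι v τ θ ε hv hτ hθ hε => ⟨one k ι v τ θ ε hv hτ hθ hε, ?_, ?_⟩, ?_, examples⟩
  · obtain ⟨E, hE, h⟩ := union_all (S := Fin 2 × Fin k → ℝ)
      (D := ENNReal.ofReal (2 * ((k : ℝ) - 1) + (ε + τ) / (1 - θ)))
      (fun f => IsFunction f.1 f.2.1 f.2.2 ∧ 2 ≤ poleCount f.1 f.2.2)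
      (fun f M => RationalsNear v θ (HoldsAt (expo f.1 ε) f.2.1 f.2.2) M)
      (fun f hf => near_rat v hε.le hτ hθ hv _
        ((EveryOneParameterFamily.result f.1 f.2.1 f.2.2 hf.1 ε hε).2.1 hf.2))
    exact ⟨E, hE, fun M hM d A D h1 h2 => h M hM (d, A, D) ⟨h1, h2⟩⟩
  · obtain ⟨E, hE, h⟩ := union_all (S := Fin 2 × Fin k → ℝ)
      (D := ENNReal.ofReal (2 * ((k : ℝ) - 1) + (1 + ε + τ) / (1 - θ)))
      (fun f => IsFunction f.1 f.2.1 f.2.2)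
      (fun f M => RationalsNear v θ (HoldsAt (expo f.1 ε) f.2.1 f.2.2) M)
      (fun f hf => near_rat v (s := 1 + ε) (by linarith) hτ hθ hv _
        (EveryOneParameterFamily.result f.1 f.2.1 f.2.2 hf ε hε).1)
    exact ⟨E, hE, fun M hM d A D h1 => h M hM (d, A, D) h1⟩
  · intro k ι v τ θ hv hτ hθ
    have h1θ : 0 < 1 - θ := by linarith
    choose E hE h using fun n : ℕ => one k ι v τ θ (1 / ((n : ℝ) + 1)) hv hτ hθ (by positivity)
    refine ⟨⋂ n, E n, ?_, fun α hα => ?_⟩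
    · apply ENNReal.le_of_forall_pos_le_add
      intro δ hδ _
      have hδ' : (0 : ℝ) < δ := by exact_mod_cast hδ
      obtain ⟨n, hn⟩ := exists_nat_one_div_lt (K := ℝ) (mul_pos hδ' h1θ)
      refine (dimH_mono (Set.iInter_subset E n)).trans ((hE n).trans ?_)
      rw [← ENNReal.ofReal_coe_nnreal (p := δ)]
      refine le_trans (ENNReal.ofReal_le_ofReal ?_) ENNReal.ofReal_add_le
      have h2 : (1 / ((n : ℝ) + 1)) / (1 - θ) ≤ δ := by
        rw [div_le_iff₀ h1θ]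
        exact hn.le
      have h3 : (1 / ((n : ℝ) + 1) + τ) / (1 - θ) = (1 / ((n : ℝ) + 1)) / (1 - θ) + τ / (1 - θ) := add_div _ _ _
      rw [h3]
      linarith
    · rw [Set.mem_iInter, not_forall] at hα
      obtain ⟨n, hn⟩ := hα
      exact ⟨1 / ((n : ℝ) + 1), by positivity, h n α hn⟩

end Pool.Agent.Results.MP_bde085_nt.GenericLinearForms
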