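import Mathlib
import Pool.Agent.Run7.h742.SZ.Sh

/-!
# The Shimura maps of the newforms of all elliptic curves with invariants at almost all integral
# points of affine space

Q1 asks for constants `κ`, `C` such that the coordinates of `H(γ)` in the basis `Ω₁`, `Ω₂` are at most
`C N ^ κ`, for all newforms `f` of level `N` with integral coefficients and all `γ ∈ Γ₀(N)` with lower
left entry `|r| ≤ N ^ 2`.  Let `j = F / G` be a rational function of `n ≥ 1` variables over `ℚ`, of degree
`D`, whose poles have the weight `ω` (a hyperplane counts for `1`, an irreducible hypersurface of higher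
degree for `2`).  For almost all integral points `x` of the affine space, in fact for almost all rational
points with any given set of denominators, and for ALL elliptic curves `E` over `ℚ` of invariant `j(x)`
(all twists) the newform `f` of `E`, of level the conductor `N`, satisfies, for `κ > (53 + D/ω) / 12`,

* `|m(γ)|, |n(γ)| ≤ C ρ N ^ κ` for all `γ ∈ Γ₀(N)` with lower left entry `|r| ≤ N ^ 2`,
* `|m(γ)|, |n(γ)| ≤ C ρ N ^ (κ + 1) (1 + log |r|)` for ALL `γ ∈ Γ₀(N)` with lower left entry `r ≠ 0`.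

Here `ρ` is the Manin constant of `E`: the parametrisation of `E` by the modular curve pulls the
Néron differential back to `± ρ 2 π i f(z) dz`, so that `ρ H(γ)` is in the lattice of the periods of
the Néron differential, whose invariants are `g₂ = c₄ / 12`, `g₃ = c₆ / 216` for the minimal
equation of `E`.  The exceptional set is the same for all invariants `j`.
-/

set_option autoImplicit false
set_option linter.unusedSectionVars false

namespace Pool.Agent.Results.MP_bde085_nt.IntegralPointsAllForms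

open MvPolynomial
open Pool.Agent.TH133.SH (IsNewform IsBasis CoordBound Hval)

/-- `W` is a global minimal Weierstrass equation: `Δ ≠ 0`, and `|Δ|` is smallest among all integral
Weierstrass equations that are obtained from `W` by a change of variables over `ℚ` -/
def IsGlobalMinimal (W : WeierstrassCurve ℤ) : Prop :=
  W.Δ ≠ 0 ∧ ∀ W' : WeierstrassCurve ℤ,
    (∃ C : WeierstrassCurve.VariableChange ℚ,
      C • W.map (Int.castRingHom ℚ) = W'.map (Int.castRingHom ℚ)) → |W.Δ| ≤ |W'.Δ|

/-- `N₆`, the prime-to-6 part of the conductor of a global minimal equation: the product over the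
primes `p ≥ 5` dividing `Δ` of `p` (multiplicative reduction, `p ∤ c₄`) or `p²` (additive,
`p ∣ c₄`) -/
def conductor6 (W : WeierstrassCurve ℤ) : ℕ :=
  ∏ p ∈ W.Δ.natAbs.primeFactors.filter (fun p => 5 ≤ p), if (p : ℤ) ∣ W.c₄ then p ^ 2 else p

/-- the number of the solutions modulo `p` of the affine equation `W` -/
noncomputable def affineCount (W : WeierstrassCurve ℤ) (p : ℕ) : ℕ :=
  {P : ZMod p × ZMod p | P.2 ^ 2 + (W.a₁ : ZMod p) * P.1 * P.2 + (W.a₃ : ZMod p) * P.2 =
    P.1 ^ 3 + (W.a₂ : ZMod p) * P.1 ^ 2 + (W.a₄ : ZMod p) * P.1 + (W.a₆ : ZMod p)}.ncard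

/-- `f = ∑ a(n) q ^ n` is the newform of level `N` of the elliptic curve with the global minimal
equation `W`, and `ρ` is the Manin constant.  By the theorems of Eichler, Shimura, Atkin, Lehner,
Carayol, Wiles and others all newforms of Q1 and all elliptic curves over `ℚ` occur. -/
structure Attached (N : ℕ) (a : ℕ → ℤ) (W : WeierstrassCurve ℤ) (ρ : ℝ) : Prop where
  /-- `f` is a newform of level `N` with integral coefficients, as in Q1 -/
  newform : IsNewform N a
  /-- the level is divisible by the prime-to-6 part of the conductor (it is the conductor) -/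
  level : conductor6 W ∣ N
  /-- the coefficients `a(p)`, for all primes `p`, including those of bad reduction -/
  trace : ∀ p : ℕ, p.Prime → a p = (p : ℤ) - (affineCount W p : ℤ)
  /-- the Euler factors at the primes dividing the level -/
  euler : ∀ p : ℕ, p.Prime → p ∣ N → ∀ n : ℕ, a (p * n) = a p * a n
  pos : 0 < ρ
  /-- `ρ H(γ)` is in the lattice of the periods of the Néron differential `dx / (2y + a₁x + a₃)`,
  which is the lattice with the invariants `g₂ = c₄ / 12` and `g₃ = c₆ / 216` -/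
  periods : ∃ L : PeriodPair, L.g₂ = (W.c₄ : ℂ) / 12 ∧ L.g₃ = (W.c₆ : ℂ) / 216 ∧
    ∀ p q r s : ℤ, p * s - q * r = 1 → (N : ℤ) ∣ r → (ρ : ℂ) * Hval a p q r s ∈ L.lattice

/-- the polynomial bounds, with constant `C` and exponent `κ`, for the coordinates `m(γ)`, `n(γ)` of the
Shimura maps of the newforms of all elliptic curves over `ℚ` of invariant `j`, for all `γ ∈ Γ₀(N)` with
lower left entry at most `N ^ 2`, and, with logarithmic growth, for all `γ ∈ Γ₀(N)` -/
def ShimuraBound (C κ : ℝ) (j : ℚ) : Prop :=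
  ∀ W : WeierstrassCurve ℤ, IsGlobalMinimal W → (W.c₄ : ℚ) ^ 3 / (W.Δ : ℚ) = j →
    ∀ (N : ℕ) (a : ℕ → ℤ) (ρ : ℝ), 1 ≤ N → Attached N a W ρ → ∀ Ω₁ Ω₂ : ℂ, IsBasis N a Ω₁ Ω₂ →
      ∀ p q r s : ℤ, p * s - q * r = 1 → (N : ℤ) ∣ r →
        (|r| ≤ (N : ℤ) ^ 2 → CoordBound a Ω₁ Ω₂ p q r s (C * ρ * (N : ℝ) ^ κ)) ∧
        (r ≠ 0 → CoordBound a Ω₁ Ω₂ p q r s
          (C * ρ * (N : ℝ) ^ (κ + 1) * (1 + Real.log |(r : ℝ)|)))

/-- `max |x_j|` -/
def H {n : ℕ} (x : Fin (n + 1) → ℤ) : ℕ := Finset.univ.sup fun j => (x j).natAbs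

/-- the rational points of the affine space `𝔸^n = ℙ^n ∖ {x 0 = 0}` with denominator in `M` and
with `H x ≤ B`: the point `(x 1 / x 0, …, x n / x 0)` is given by its coprime integer coordinates
with `x 0 > 0`, and `x 0` is its denominator. `M = {1}`: the integral points -/
def Points (n : ℕ) (M : Set ℕ) (B : ℕ) : Set (Fin (n + 1) → ℤ) :=
  {x | Finset.univ.gcd x = 1 ∧ 0 < x 0 ∧ (x 0).toNat ∈ M ∧ H x ≤ B}

/-- `F`, `G` are forms of degree `D` in `x 0, …, x n`, so `F / G` is a rational function on `𝔸^n`,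
and its poles contain the distinct hypersurfaces `P j = 0` of degree `k j`, irreducible over `ℚ`,
none of which is the hyperplane `x 0 = 0`: `P j` divides `G` and does not divide `F` -/
structure IsInvariant {n q : ℕ} (D : ℕ) (F G : MvPolynomial (Fin (n + 1)) ℤ)
    (P : Fin q → MvPolynomial (Fin (n + 1)) ℤ) (k : Fin q → ℕ) : Prop where
  hF : F.IsHomogeneous D
  hG : G.IsHomogeneous D
  hP : ∀ j, (P j).IsHomogeneous (k j)
  irreducible : ∀ j, Irreducible (map (Int.castRingHom ℚ) (P j))
  distinct : ∀ i j, i ≠ j →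
    ¬ Associated (map (Int.castRingHom ℚ) (P i)) (map (Int.castRingHom ℚ) (P j))
  affine : ∀ j, ¬ Associated (map (Int.castRingHom ℚ) (P j)) (X 0)
  dvd : ∀ j, map (Int.castRingHom ℚ) (P j) ∣ map (Int.castRingHom ℚ) G
  not_dvd : ∀ j, ¬ map (Int.castRingHom ℚ) (P j) ∣ map (Int.castRingHom ℚ) F

/-- the weight of the poles: a pole of degree `1` counts for `1`, a pole of degree at least `2`
counts for `2` -/
def weight {q : ℕ} (k : Fin q → ℕ) : ℝ := ∑ j, ((min (k j) 2 : ℕ) : ℝ)

/-- the value `F (x) / G (x)` -/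
noncomputable def value {n : ℕ} (F G : MvPolynomial (Fin (n + 1)) ℤ) (x : Fin (n + 1) → ℤ) : ℚ :=
  ((eval x F : ℤ) : ℚ) / ((eval x G : ℤ) : ℚ)

/-- the points `x` which are not poles of `F / G` and for which the bounds with the constant `C` and the
exponent `κ` fail for the invariant `F (x) / G (x)` -/
def Failures {n : ℕ} (F G : MvPolynomial (Fin (n + 1)) ℤ) (C κ : ℝ) : Set (Fin (n + 1) → ℤ) :=
  {x | x 0 ≠ 0 ∧ eval x G ≠ 0 ∧ ¬ ShimuraBound C κ (value F G x)}

/-- the proportion of the points of `Q` among the points with denominators in `M` of height at most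
`B` is at most a negative power of `B`, uniformly in the set `M` -/
def PowerSaving (n : ℕ) (Q : Set (Fin (n + 1) → ℤ)) : Prop :=
  ∃ δ : ℝ, 0 < δ ∧ ∃ C : ℝ, 0 < C ∧ ∀ B : ℕ, 1 ≤ B → ∀ M : Set ℕ,
    ((Points n M B ∩ Q).ncard : ℝ) ≤ C * (B : ℝ) ^ (-δ) * ((Points n M B).ncard : ℝ)

theorem bound_of {C κ : ℝ} {j : ℚ} (h : Run7.h742.SZ.ShC C κ j) : ShimuraBound C κ j := by
  intro W hW hj N a ρ hN hA Ω₁ Ω₂ hb p q r s hdet hr
  exact h W hW hj N a ρ hN
    ⟨hA.newform, hA.level, hA.trace, hA.euler, hA.pos, hA.periods⟩ Ω₁ Ω₂ hb p q r s hdet hr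

/-- **The Shimura maps above almost all integral points.** For every number `n ≥ 1` of variables there
is one set `E₀` of relative density zero among the points with denominators in `M`, uniformly in `M`,
with the following properties for all invariants `j = F / G` of `n` variables, of degree `D`, whose
poles have the weight `ω`, and for all `κ > (53 + D / ω) / 12`:
(1) for every `C > 0` the bounds with the constant `C` and the exponent `κ` hold for the invariant
`j (x)`, for all points `x` outside a set which contains a power-saving proportion of the points,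
uniformly in `M`;
(2) for some `C` depending on `j` and `κ` they hold for all `x` outside `E₀` with `j (x) ≠ 0, ∞`, that is
for the newforms of all elliptic curves over `ℚ` of invariant `j (x)`. -/
theorem result : ∀ n : ℕ, 1 ≤ n → ∃ E₀ : Set (Fin (n + 1) → ℤ),
    (∀ ε : ℝ, 0 < ε → ∃ B₀ : ℕ, ∀ B : ℕ, B₀ ≤ B → ∀ M : Set ℕ,
      ((Points n M B ∩ E₀).ncard : ℝ) ≤ ε * ((Points n M B).ncard : ℝ)) ∧
    ∀ (D q : ℕ) (F G : MvPolynomial (Fin (n + 1)) ℤ)
      (P : Fin q → MvPolynomial (Fin (n + 1)) ℤ) (k : Fin q → ℕ), IsInvariant D F G P k →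
      ∀ κ : ℝ, (D : ℝ) < (12 * κ - 53) * weight k →
        (∀ C : ℝ, 0 < C → PowerSaving n (Failures F G C κ)) ∧
        ∃ C : ℝ, ∀ x : Fin (n + 1) → ℤ, x 0 ≠ 0 → x ∉ E₀ → eval x F ≠ 0 → eval x G ≠ 0 →
          ShimuraBound C κ (value F G x) := by
  intro n hn
  obtain ⟨E₀, hE₀, hall⟩ := Run7.h742.SZ.sh_univ hn
  refine ⟨E₀, hE₀, fun D q F G P k h κ hlt => ?_⟩
  have hI : Run7.h742.SZ.Inv D F G P k :=
    ⟨h.hF, h.hG, ⟨h.hP, h.irreducible, h.distinct, h.affine⟩, h.dvd, h.not_dvd⟩
  have hκ : (53 : ℝ) / 12 + (12 * κ - 53) / 12 = κ := by ring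
  refine ⟨fun C hC => ?_, ?_⟩
  · refine (Run7.h742.SZ.sh_ps hn hI hlt hC).mono ?_
    rintro x ⟨hx, hG, hH⟩
    refine ⟨hx, hG, fun hE => hH ?_⟩
    rw [hκ] at hE
    exact bound_of hE
  · obtain ⟨C, hC⟩ := hall D q F G P k hI (12 * κ - 53) hlt
    refine ⟨C, fun x hx hxE hFx hGx => ?_⟩
    have h1 := hC x hx hxE hFx hGx
    rw [hκ] at h1
    exact bound_of h1

end Pool.Agent.Results.MP_bde085_nt.IntegralPointsAllForms
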