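import Mathlib
import Pool.Agent.Run7.h795.RV.Pole
import Pool.Agent.Run7.h823.WF.Ex
import Pool.Agent.Results.MP_bde085_nt.EveryOneParameterFamily

/-!
# The Shimura maps of the newforms of elliptic curves along sparse families of vectors of residues, for instance the first
# `m ^ ε` terms of linear recurrences modulo `m`

Let `J = A / D` be a rational function over `ℚ` in `r` variables, for example the `j`-invariant of an elliptic curve over
`ℚ(t₁, …, t_r)`, whose reductions modulo the primes have many poles in the mean (`MeanPoles`); this is so for the universal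
family `y² = x³ + t₁ x + t₂`. For all `β`, `ε > 0` and `B` there is an exponent `κ` such that for all large `q` and all finite
families `y_i`, `i ∈ t`, of vectors of `r` residues modulo `q` with Fourier coefficients at most `q ^ (-β) |t|`
(`Flat`) the following holds for all but `ε |t|` of the integral vectors `v = c₀ + y_i` (least residues, `c₀` any integral
vector with entries at most `q ^ B`): the bounds of Q1 with the exponent `κ` hold for the newforms of all elliptic curves over
`ℚ` (all quadratic twists) of invariant `J(v)`: the coordinates of `H(γ)` are at most `ρ N_f ^ κ` for all `γ` in `Γ₀(N_f)` with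
lower left entry at most `N_f ^ 2`, and at most `ρ N_f ^ (κ + 1) (1 + log |r|)` for all `γ` with lower left entry `r ≠ 0`; `N_f`
is the level and `ρ` is the Manin constant.

The family can be very sparse. Examples, with `β = β(ε, …) > 0`:

* the values `(u_1(n), …, u_r(n))`, `n < N`, of `r` linear recurrences modulo a prime `m` with linearly independent vectors of
  coefficients, as soon as `N ≥ m ^ ε` and the roots and their quotients have orders `≥ m ^ ε`;
* the vectors `(x_1 b_1 ^ n, …, x_r b_r ^ n)`, `n < N`, `N ≥ m ^ ε`, for fixed different integers `b_j ≥ 2` and all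
  `x_j ≠ 0`, modulo all but `C X ^ ε` of the primes `m ≤ X`.

In these examples only `m ^ ε` of the `m ^ r` vectors of the box occur. In the starting file `ThinSequences` the vectors are
the integer parts of generalised polynomials.

The definitions (newforms attached to a curve, `ShimuraBound`) are those of the starting file `EveryOneParameterFamily`, which
is about one parameter and all rational numbers or integers.

Proof. Families with small Fourier coefficients are well distributed modulo all integers up to a power of `q` (the transfer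
of helper823, `Pool.Agent.Run7.h823.WF`; the Fourier coefficients of short recurrences are estimated by the method of
Bourgain, Glibichuk and Konyagin). By Turan's sieve (helper141, helper54) all but the proportion `ε` of the `v` have a prime
divisor of `D(v)` which is at least a power of `q` and does not divide `A(v)`. This prime divides the level of the newforms of
all curves of invariant `J(v)`, whose height is at most a power of `q`, and this is enough for the bounds
(`Pool.Agent.N365.SM`, helper365).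
-/

set_option autoImplicit false

namespace Pool.Agent.Results.MP_bde085_nt.ResidueVectors

open MvPolynomial
open Pool.Agent.Results.MP_bde085_nt.EveryOneParameterFamily (ShimuraBound)

/-- the sum over the primes `y < p ≤ x` of the proportion of the vectors modulo `p` that are zeros of
`D` but not of `A` is at least `δ (log log x - log log y) - C` -/
def MeanPoles {r : ℕ} (A D : MvPolynomial (Fin r) ℤ) : Prop :=
  ∃ δ C : ℝ, 0 < δ ∧ ∀ y x : ℕ, 3 ≤ y → y ≤ x →
    δ * (Real.log (Real.log x) - Real.log (Real.log y)) - C ≤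
      ∑ p ∈ (Finset.Ioc y x).filter Nat.Prime,
        ({ρ : Fin r → ZMod p | aeval ρ D = 0 ∧ aeval ρ A ≠ 0}.ncard : ℝ) / (p : ℝ) ^ r

/-- The Fourier coefficients of the vectors of residues `y i`, `i ∈ s`, modulo `q` at the nonzero frequencies are at most
`η` times the number of the vectors: `|∑ i ∈ s, e(h·y_i / q)| ≤ η |s|` for all vectors `h ≠ 0` modulo `q`. -/
def Flat {τ ι : Type} [Fintype ι] (q : ℕ) [NeZero q] (η : ℝ) (s : Finset τ) (y : τ → ι → ZMod q) : Prop :=
  ∀ h : ι → ZMod q, h ≠ 0 → ‖∑ i ∈ s, (ZMod.stdAddChar (∑ j, h j * y i j) : ℂ)‖ ≤ η * s.card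

/-- The integral vector `c₀ + y_i`, with the least residues `0 ≤ y_i < q`. -/
def vec {τ ι : Type} {q : ℕ} (y : τ → ι → ZMod q) (c₀ : ι → ℤ) (i : τ) (j : ι) : ℤ := c₀ j + ((y i j).val : ℕ)

/-- `v` is not a pole of `A / D`, and the bounds of Q1, with the exponent `κ`, hold for the newforms of all elliptic curves
over `ℚ` of invariant `(A / D) (v)` -/
def Holds (κ : ℝ) {r : ℕ} (A D : MvPolynomial (Fin r) ℤ) (v : Fin r → ℤ) : Prop :=
  eval v D ≠ 0 ∧ ShimuraBound κ ((eval v A : ℤ) / (eval v D : ℤ))

/-- the bounds in terms of the structure of the library -/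
theorem of_sh {κ : ℝ} {r : ℕ} {A D : MvPolynomial (Fin r) ℤ} {v : Fin r → ℤ}
    (h : eval v D ≠ 0 ∧ Pool.Agent.N365.SM.Sh κ ((eval v A : ℤ) / (eval v D : ℤ))) :
    Holds κ A D v :=
  ⟨h.1, fun W hW hj N a ρ hN hA Ω₁ Ω₂ hb p q r s hdet hr => h.2 W hW hj N a ρ hN
    ⟨hA.newform, hA.level, hA.trace, hA.euler, hA.pos, hA.periods⟩ Ω₁ Ω₂ hb p q r s hdet hr⟩

/-- **Theorem.** (1) The bounds of Q1, with an exponent `κ`, hold for the newforms of all elliptic curves over `ℚ` of
invariant `(A / D)(v)` for all but `ε |t|` of the members `v = c₀ + y_i` of every family of vectors of residues modulo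
`q ≥ q₀` with Fourier coefficients at most `q ^ (-β) |t|`. (2) Examples of families: short linear recurrences. (3) Examples of
families: the first powers of fixed integers, modulo all but `C X ^ ε` of the primes `m ≤ X`. (4) The invariant
`6912 t₁³ / (4 t₁³ + 27 t₂²)` of the universal family `y² = x³ + t₁ x + t₂` has many poles in the mean. -/
theorem result :
    (∀ (r : ℕ) (A D : MvPolynomial (Fin r) ℤ), D ≠ 0 → MeanPoles A D →
      ∀ (B : ℕ) (β ε : ℝ), 0 < β → 0 < ε → ∃ (κ : ℝ) (q₀ : ℕ),
      ∀ (q : ℕ) [NeZero q], q₀ ≤ q → ∀ (τ : Type) (t : Finset τ) (y : τ → Fin r → ZMod q),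
        Flat q ((q : ℝ) ^ (-β)) t y → ∀ c₀ : Fin r → ℤ, (∀ j, |(c₀ j : ℝ)| ≤ (q : ℝ) ^ B) →
        ({i : τ | i ∈ t ∧ ¬ Holds κ A D (vec y c₀ i)}.ncard : ℝ) ≤ ε * t.card) ∧
    (∀ (k : ℕ) (ε : ℝ), 0 < ε → ∃ β : ℝ, 0 < β ∧ ∃ m₀ : ℕ, ∀ (m : ℕ) [Fact m.Prime], m₀ ≤ m →
      ∀ (ι : Type) [Fintype ι] (c : ι → Fin k → ZMod m) (g : Fin k → (ZMod m)ˣ) (N : ℕ), LinearIndependent (ZMod m) c →
      (∀ i, (m : ℝ) ^ ε ≤ orderOf (g i)) → (∀ i j, i ≠ j → (m : ℝ) ^ ε ≤ orderOf (g i / g j)) → (m : ℝ) ^ ε ≤ N →
      Flat m ((m : ℝ) ^ (-β)) (Finset.range N) (fun n j => ∑ i, c j i * (g i : ZMod m) ^ n)) ∧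
    (∀ (ι : Type) [Fintype ι] (ε : ℝ), 0 < ε → ∃ β : ℝ, 0 < β ∧ ∀ b : ι → ℕ, (∀ j, 2 ≤ b j) → Function.Injective b →
      ∃ C : ℝ, ∀ X : ℕ, 1 ≤ X → ∀ Q : Finset ℕ,
      (∀ m ∈ Q, m ≤ X ∧ ∃ _ : Fact m.Prime, ¬ ∀ N : ℕ, (m : ℝ) ^ ε ≤ N → ∀ x : ι → ZMod m, (∀ j, x j ≠ 0) →
        Flat m ((m : ℝ) ^ (-β)) (Finset.range N) (fun n j => x j * (b j : ZMod m) ^ n)) →
      (Q.card : ℝ) ≤ C * (X : ℝ) ^ ε) ∧
    MeanPoles (C 6912 * X 0 ^ 3 : MvPolynomial (Fin 2) ℤ) (C 4 * X 0 ^ 3 + C 27 * X 1 ^ 2) := by
  refine ⟨fun r A D hD hM B β ε hβ hε => ?_, fun k ε hε => Pool.Agent.Run7.h823.WF.flat_rec' k hε,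
    fun ι _ ε hε => Pool.Agent.Run7.h823.WF.flat_pow' ι hε, Run7.h795.RV.mean_wei⟩
  obtain ⟨κ, q₀, h⟩ := Run7.h795.RV.shimura_res hD hM hβ B ε hε
  refine ⟨κ, q₀, fun q _ hq τ t y hf c₀ hc₀ => ?_⟩
  exact (Run7.h795.RV.ncard_mono fun i _ hn hb => hn (of_sh hb)).trans (h τ q hq t y c₀ hf hc₀)

end Pool.Agent.Results.MP_bde085_nt.ResidueVectors
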